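import Mathlib

set_option autoImplicit false

namespace Pool.Agent.Results.MP_6117a1_gt.Counter

open scoped NNReal

universe u

/-- `ρ` is a metric on a nonempty set. -/
def IsMetric {Y : Type u} (ρ : Y → Y → ℝ≥0) : Prop :=
  Nonempty Y ∧ (∀ x y, ρ x y = 0 ↔ x = y) ∧ (∀ x y, ρ x y = ρ y x) ∧
    ∀ x y z, ρ x z ≤ ρ x y + ρ y z

/-- The functions preserving the class `X`. -/
def Pres (X : ∀ Y : Type u, (Y → Y → ℝ≥0) → Prop) : Set (ℝ≥0 → ℝ≥0) :=
  {f | ∀ (Y : Type u) (ρ : Y → Y → ℝ≥0), X Y ρ → X Y fun x y => f (ρ x y)}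

/-- A submonoid of the amenable functions that is not the set of preservers of any class of
metric spaces. -/
theorem result : ∃ A : Set (ℝ≥0 → ℝ≥0), id ∈ A ∧ (∀ f ∈ A, ∀ g ∈ A, f ∘ g ∈ A) ∧
    (∀ f ∈ A, ∀ t, f t = 0 ↔ t = 0) ∧
    ∀ X : ∀ Y : Type u, (Y → Y → ℝ≥0) → Prop, (∀ Y ρ, X Y ρ → IsMetric ρ) → Pres X ≠ A := by
  classical
  refine ⟨{f | Function.Bijective f ∧ f 0 = 0}, ⟨Function.bijective_id, rfl⟩,
    fun f hf g hg => ⟨hf.1.comp hg.1, by simp [hf.2, hg.2]⟩,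
    fun f hf t => ⟨fun h => hf.1.1 (h.trans hf.2.symm), fun h => h ▸ hf.2⟩, fun X hX e => ?_⟩
  have s : ∀ a b : ℝ≥0, a ≠ 0 → b ≠ 0 → ⇑(Equiv.swap a b) ∈ Pres X := fun a b ha hb =>
    e ▸ ⟨(Equiv.swap a b).bijective, Equiv.swap_apply_of_ne_of_ne ha.symm hb.symm⟩
  have : (fun t => if t = 0 then 0 else 1) ∈ Pres X := fun Y ρ h => by
    obtain ⟨-, h0, h1, -⟩ := hX Y ρ h
    have t : ∀ x y z, x ≠ z → ρ x z ≠ ρ x y → ρ x z ≠ ρ y z → False := fun x y z n a b => by
      have p : ∀ u v : ℝ≥0, u < u + v + 1 := fun u v => by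
        rw [add_assoc]; exact lt_add_of_pos_right _ (by positivity)
      have := (hX _ _ (s _ (ρ x y + ρ y z + 1) (mt (h0 x z).1 n) (by positivity) Y ρ h)).2.2.2 x y z
      simp only [Equiv.swap_apply_left] at this
      rw [Equiv.swap_apply_of_ne_of_ne a.symm (p _ _).ne,
        Equiv.swap_apply_of_ne_of_ne b.symm ((p _ (ρ x y)).trans_eq (by rw [add_comm (ρ x y)])).ne] at this
      exact absurd this (lt_add_one _).not_ge
    have a : ∀ x y z, x ≠ y → x ≠ z → ρ x y = ρ x z := fun x y z hy hz => by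
      by_contra n
      by_cases c : ρ x z = ρ y z
      · exact t x z y hy n fun k => n (by rw [k, c, h1])
      · exact t x y z hz (Ne.symm n) c
    by_cases k : ∃ x y : Y, x ≠ y
    · obtain ⟨x, y, k⟩ := k
      have := s (ρ x y) 1 (mt (h0 x y).1 k) one_ne_zero Y ρ h
      rwa [show (fun z w => Equiv.swap (ρ x y) 1 (ρ z w)) = _ from
        funext₂ fun z w => ?_] at this
      dsimp only
      split_ifs with c
      · rw [c]; exact Equiv.swap_apply_of_ne_of_ne (Ne.symm (mt (h0 x y).1 k)) zero_ne_one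
      · have n : z ≠ w := mt (h0 z w).2 c
        have : ρ z w = ρ x y := by
          by_cases d : z = x
          · subst d; exact a _ _ _ n k
          · rw [a z w x n d, h1, a x z y (Ne.symm d) k]
        rw [this, Equiv.swap_apply_left]
    · push Not at k
      rwa [show (fun x y => (fun t : ℝ≥0 => if t = 0 then (0 : ℝ≥0) else 1) (ρ x y)) = ρ from
        funext₂ fun z w => by simp [(h0 z w).2 (k z w)]]
  rw [e] at this
  simpa using this.1.1 (a₁ := 1) (a₂ := 2) (by simp)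

end Pool.Agent.Results.MP_6117a1_gt.Counter
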